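import Mathlib
import Pool.Agent.Y268.D3.Defs

/-! General facts on iterated means. -/

open scoped ComplexOrder InnerProductSpace ComplexConjugate
open Finset

noncomputable section

namespace Pool.Agent.Y155.D3

open Y268.D3

section it

variable {V S α : Type} [DecidableEq V]

theorem itE_append (M : V → Mean S) (l₁ l₂ : List V) (f : (V → S) → ℂ) :
    itE M (l₁ ++ l₂) f = itE M l₁ (itE M l₂ f) := by
  induction l₁ with
  | nil => rfl
  | cons v l ih =>
    funext ω
    simp only [List.cons_append, itE, ih]

/-- The function takes the same value at samples which agree on `D`. -/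
def Dep (D : V → Prop) (f : (V → S) → α) : Prop :=
  ∀ ω ω' : V → S, (∀ v, D v → ω v = ω' v) → f ω = f ω'

theorem Dep.mono {D D' : V → Prop} {f : (V → S) → α} (h : Dep D f) (hD : ∀ v, D v → D' v) :
    Dep D' f := fun ω ω' h' => h ω ω' fun v hv => h' v (hD v hv)

theorem Dep.upd {D : V → Prop} {f : (V → S) → α} (h : Dep D f) {v : V} (hv : ¬ D v)
    (ω : V → S) (t : S) : f (Function.update ω v t) = f ω := by
  apply h
  intro u hu
  have e : u ≠ v := by
    rintro rfl
    exact hv hu
  rw [Function.update_of_ne e]

theorem Dep.itE {M : V → Mean S} {D : V → Prop} {f : (V → S) → ℂ} (h : Dep D f) (l : List V) :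
    Dep D (itE M l f) := by
  induction l with
  | nil => exact h
  | cons v l ih =>
    intro ω ω' hω
    simp only [Y268.D3.itE]
    congr 1
    funext t
    apply ih
    intro u hu
    by_cases e : u = v
    · subst e
      simp
    · rw [Function.update_of_ne e, Function.update_of_ne e, hω u hu]

theorem itE_skip (M : V → Mean S) (l : List V) (f : (V → S) → ℂ) {D : V → Prop} (h : Dep D f)
    (hl : ∀ v ∈ l, ¬ D v) : itE M l f = f := by
  induction l with
  | nil => rfl
  | cons v l ih =>
    have e := ih (fun u hu => hl u (List.mem_cons_of_mem _ hu))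
    funext ω
    simp only [itE, e]
    have e2 : (fun t => f (Function.update ω v t)) = fun _ => f ω := by
      funext t
      exact h.upd (hl v List.mem_cons_self) ω t
    rw [e2, Mean.const]

theorem itE_congr (M : V → Mean S) (l : List V) (f g : (V → S) → ℂ) (ω : V → S)
    (h : ∀ ω', (∀ v, v ∉ l → ω' v = ω v) → f ω' = g ω') :
    itE M l f ω = itE M l g ω := by
  induction l generalizing ω with
  | nil => exact h ω (fun _ _ => rfl)
  | cons v l ih =>
    simp only [itE]
    congr 1
    funext t
    apply ih
    intro ω' hω'
    apply h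
    intro u hu
    rw [List.mem_cons, not_or] at hu
    rw [hω' u hu.2, Function.update_of_ne hu.1]

theorem itE_mul (M : V → Mean S) (l : List V) (f g : (V → S) → ℂ) (D : V → Prop)
    (hf : Dep D f) (hg : Dep (fun v => ¬ D v) g) (ω : V → S) :
    itE M l (fun ω => f ω * g ω) ω = itE M l f ω * itE M l g ω := by
  induction l generalizing ω with
  | nil => rfl
  | cons v l ih =>
    simp only [itE, ih]
    by_cases hv : D v
    · have h1 : ∀ t, itE M l g (Function.update ω v t) = itE M l g ω := fun t =>
        (hg.itE l).upd (by simpa using hv) ω t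
      simp only [h1]
      rw [Mean.mul_const, Mean.const]
    · have h1 : ∀ t, itE M l f (Function.update ω v t) = itE M l f ω := fun t =>
        (hf.itE l).upd hv ω t
      simp only [h1]
      rw [Mean.const_mul, Mean.const]

theorem itE_comm (M : V → Mean S) (l : List V) (f : (V → S) → ℂ) {v : V} (hv : v ∉ l)
    (t : S) (ω : V → S) :
    itE M l f (Function.update ω v t) = itE M l (fun ω' => f (Function.update ω' v t)) ω := by
  induction l generalizing ω with
  | nil => rfl
  | cons u l ih =>
    rw [List.mem_cons, not_or] at hv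
    simp only [itE]
    congr 1
    funext s
    rw [Function.update_comm hv.1, ih hv.2]

theorem exists_last {l : List V} {v : V} (hv : v ∈ l) :
    ∃ l₁ l₂ : List V, l = l₁ ++ v :: l₂ ∧ v ∉ l₂ := by
  induction l with
  | nil => simp at hv
  | cons u l ih =>
    by_cases h : v ∈ l
    · obtain ⟨l₁, l₂, e, h2⟩ := ih h
      exact ⟨u :: l₁, l₂, by rw [e]; rfl, h2⟩
    · have e : v = u := by
        rcases List.mem_cons.1 hv with e | e
        · exact e
        · exact absurd e h
      subst e
      exact ⟨[], l, rfl, h⟩

theorem itE_zero (M : V → Mean S) (l : List V) (ω : V → S) : itE M l (fun _ => 0) ω = 0 := by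
  have h := itE_skip M l (fun _ : V → S => (0 : ℂ)) (D := fun _ => False)
    (fun _ _ _ => rfl) (fun _ _ h => h)
  rw [h]

/-- Isolation of one variable. -/
theorem itE_isolate (M : V → Mean S) (l : List V) {v : V} (hv : v ∈ l) (f : (V → S) → ℂ)
    (h : ∀ (l₂ : List V) (ω₁ : V → S),
      (M v).E (fun p => (itMean M l₂ ω₁).E (fun ω' => f (Function.update ω' v p))) = 0)
    (ω : V → S) : itE M l f ω = 0 := by
  obtain ⟨l₁, l₂, e, h2⟩ := exists_last hv
  rw [e, itE_append]
  have e1 : itE M (v :: l₂) f = fun _ => 0 := by
    funext ω₁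
    rw [← h l₂ ω₁]
    simp only [itE, itMean_E]
    congr 1
    funext t
    exact itE_comm M l₂ f h2 t ω₁
  rw [e1, itE_zero]

/-- Iterated means of functions of one variable of the list. -/
theorem itE_single (M : V → Mean S) (l : List V) {v : V} (hv : v ∈ l) (f : (V → S) → ℂ)
    (h : Dep (fun u => u = v ∨ u ∉ l) f) (ω : V → S) :
    itE M l f ω = (M v).E (fun t => f (Function.update ω v t)) := by
  obtain ⟨l₁, l₂, e, h2⟩ := exists_last hv
  rw [e, itE_append]
  have hl2 : ∀ u ∈ l₂, ¬ (u = v ∨ u ∉ l) := by
    intro u hu
    rintro (h3 | h3)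
    · rw [h3] at hu
      exact h2 hu
    · apply h3
      rw [e]
      simp [hu]
  have e1 : itE M (v :: l₂) f = fun ω => (M v).E (fun t => f (Function.update ω v t)) := by
    funext ω₁
    simp only [itE, itE_skip M l₂ f h hl2]
  rw [e1, itE_skip M l₁ _ (D := fun u => u ∉ l)]
  · intro ω₁ ω₂ h3
    change (M v).E (fun t => f (Function.update ω₁ v t)) =
      (M v).E (fun t => f (Function.update ω₂ v t))
    congr 1
    funext t
    apply h
    intro u hu
    by_cases e3 : u = v
    · subst e3
      simp
    · rw [Function.update_of_ne e3, Function.update_of_ne e3]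
      rcases hu with hu | hu
      · exact absurd hu e3
      · exact h3 u hu
  · intro u hu h3
    apply h3
    rw [e]
    simp [hu]

end it

/-- Iterated mean over the variables of one block. -/
theorem stage_T {S : Type} (M : Var → Mean S) (n s o : ℕ) (hs : s < o) (ho : o ≤ n)
    (T : S → S → S → ℂ) (ω : Var → S) :
    itE M (stageVars n s) (fun ω' => T (ω' (.rot o s)) (ω' (.rot s s)) (ω' (.core s))) ω =
      (M (.rot s s)).E (fun p => (M (.rot o s)).E (fun r => (M (.core s)).E (fun c =>
        T r p c))) := by
  have hL : (List.range (n + 1)).map (fun o => Var.rot o s) =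
      (List.range (s + 1)).map (fun o => Var.rot o s) ++
        (List.range (n - s)).map (fun i => Var.rot (s + 1 + i) s) := by
    have e : n + 1 = (s + 1) + (n - s) := by omega
    rw [e, List.range_add, List.map_append, List.map_map]
    rfl
  have e0 : stageVars n s = (List.range (s + 1)).map (fun o => Var.rot o s) ++
      ((List.range (n - s)).map (fun i => Var.rot (s + 1 + i) s) ++ [Var.core s]) := by
    rw [stageVars, hL, List.append_assoc]
  rw [e0, itE_append, itE_append]
  have e1 : itE M [Var.core s]
      (fun ω' => T (ω' (.rot o s)) (ω' (.rot s s)) (ω' (.core s))) =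
      fun ω' => (M (.core s)).E (fun c => T (ω' (.rot o s)) (ω' (.rot s s)) c) := by
    funext ω'
    simp [itE]
  have e2 : itE M ((List.range (n - s)).map (fun i => Var.rot (s + 1 + i) s))
      (fun ω' => (M (.core s)).E (fun c => T (ω' (.rot o s)) (ω' (.rot s s)) c)) =
      fun ω' => (M (.rot o s)).E (fun r => (M (.core s)).E (fun c => T r (ω' (.rot s s)) c)) := by
    funext ω'
    have hmem : Var.rot o s ∈ (List.range (n - s)).map (fun i => Var.rot (s + 1 + i) s) := by
      rw [List.mem_map]
      refine ⟨o - (s + 1), ?_, ?_⟩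
      · rw [List.mem_range]
        omega
      · congr 1
        omega
    have hns : Var.rot s s ∉ (List.range (n - s)).map (fun i => Var.rot (s + 1 + i) s) := by
      rw [List.mem_map]
      rintro ⟨i, _, hi⟩
      simp only [Var.rot.injEq] at hi
      omega
    rw [itE_single M _ hmem]
    · have hne : Var.rot s s ≠ Var.rot o s := by
        intro h
        simp only [Var.rot.injEq] at h
        omega
      simp only [Function.update_self, Function.update_of_ne hne]
    · intro ω₁ ω₂ h
      have h1 := h (.rot o s) (Or.inl rfl)
      have h2 := h (.rot s s) (Or.inr hns)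
      simp only [h1, h2]
  rw [e1, e2]
  have hmem : Var.rot s s ∈ (List.range (s + 1)).map (fun o => Var.rot o s) := by
    rw [List.mem_map]
    exact ⟨s, by simp, rfl⟩
  rw [itE_single M _ hmem]
  · simp only [Function.update_self]
  · intro ω₁ ω₂ h
    have h2 := h (.rot s s) (Or.inl rfl)
    simp only [h2]

end Pool.Agent.Y155.D3
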