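import Mathlib
import Pool.Agent.Y155.D3.It

/-! Random words: dependence, splitting, values. -/

open scoped ComplexOrder InnerProductSpace ComplexConjugate
open Finset

noncomputable section

namespace Pool.Agent.Y155.D3

open Y268.D3

/-- The owner of a variable. -/
def own : Var → ℕ
  | .rot o _ => o
  | .core b => b

/-- The block of a variable. -/
def blk : Var → ℕ
  | .rot _ b => b
  | .core b => b

theorem blk_stageVars {n s : ℕ} {v : Var} (hv : v ∈ stageVars n s) : blk v = s := by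
  rw [stageVars, List.mem_append, List.mem_map, List.mem_singleton] at hv
  rcases hv with ⟨o, _, rfl⟩ | rfl
  · rfl
  · rfl

theorem rot_mem_vars {n s o b : ℕ} (ho : o ≤ n) (hb : b < s) : Var.rot o b ∈ vars n s := by
  induction s with
  | zero => omega
  | succ s ih =>
    rw [vars, List.mem_append]
    rcases Nat.lt_succ_iff_lt_or_eq.1 hb with h | h
    · exact Or.inl (ih h)
    · right
      rw [h, stageVars, List.mem_append, List.mem_map]
      exact Or.inl ⟨o, by rw [List.mem_range]; omega, rfl⟩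

section

variable {B : Type} [CStarAlgebra B]

theorem preH_congr {ω ω' : Smp B} {o s : ℕ} (h : ∀ b < s, ω (.rot o b) = ω' (.rot o b)) :
    preH ω o s = preH ω' o s := by
  induction s with
  | zero => rfl
  | succ s ih =>
    rw [preH, preH, ih (fun b hb => h b (Nat.lt_succ_of_lt hb)), h s (Nat.lt_succ_self s)]

theorem preK_congr {ω ω' : Smp B} {o s : ℕ} (h : ∀ b < s, ω (.rot o b) = ω' (.rot o b)) :
    preK ω o s = preK ω' o s := by
  induction s with
  | zero => rfl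
  | succ s ih =>
    rw [preK, preK, ih (fun b hb => h b (Nat.lt_succ_of_lt hb)), h s (Nat.lt_succ_self s)]

theorem Gl_congr {ω ω' : Smp B} {c : ℕ} (h : ∀ b < c + 1, ω (.rot c b) = ω' (.rot c b))
    (h' : ω (.core c) = ω' (.core c)) : Gl ω c = Gl ω' c := by
  rw [Gl, Gl, preH_congr h, preK_congr h, h']

theorem Wd_congr {G G' : ℕ → unitary B} {l : List (ℕ × B)} (h : ∀ c ∈ l.map Prod.fst, G c = G' c) :
    Wd G l = Wd G' l := by
  induction l with
  | nil => rfl
  | cons x l ih =>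
    obtain ⟨c, x⟩ := x
    rw [Wd, Wd, ih (fun d hd => h d (by simp only [List.map_cons, List.mem_cons]; exact Or.inr hd)),
      h c (by simp)]

theorem preH_own (o s : ℕ) : Dep (fun v => own v = o) (fun ω : Smp B => preH ω o s) :=
  fun _ _ h => preH_congr fun b _ => h (.rot o b) rfl

theorem preK_own (o s : ℕ) : Dep (fun v => own v = o) (fun ω : Smp B => preK ω o s) :=
  fun _ _ h => preK_congr fun b _ => h (.rot o b) rfl

theorem Wd_own (l : List (ℕ × B)) :
    Dep (fun v => own v ∈ l.map Prod.fst) (fun ω : Smp B => Wd (Gl ω) l) :=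
  fun _ _ h => Wd_congr fun c hc => Gl_congr (fun _ _ => h (.rot c _) hc) (h (.core c) hc)

theorem Wd_blk {l : List (ℕ × B)} {s : ℕ} (hl : ∀ c ∈ l.map Prod.fst, c < s) :
    Dep (fun v => blk v < s) (fun ω : Smp B => Wd (Gl ω) l) :=
  fun _ _ h => Wd_congr fun c hc => Gl_congr
    (fun b hb => h (.rot c b) (by have := hl c hc; change b < s; omega)) (h (.core c) (hl c hc))

theorem Wd_append (G : ℕ → unitary B) (l₁ l₂ : List (ℕ × B)) :
    Wd G (l₁ ++ l₂) = Wd G l₁ * Wd G l₂ := by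
  induction l₁ with
  | nil => simp [Wd]
  | cons x l ih =>
    obtain ⟨c, x⟩ := x
    rw [List.cons_append, Wd, Wd, ih]
    noncomm_ring

theorem Wd_split (G : ℕ → unitary B) (l₁ l₂ : List (ℕ × B)) (c : ℕ) (x : B) :
    Wd G (l₁ ++ (c, x) :: l₂) = Wd G l₁ * ((G c : B) * x * Wd G l₂) := by
  rw [Wd_append, Wd]

theorem Gl_coe (ω : Smp B) (s : ℕ) : (Gl ω s : B) =
    star (preK ω s s : B) * star ((ω (.rot s s)).2 : B) * ((ω (.core s)).1 : B) *
      (((ω (.rot s s)).1 : B) * (preH ω s s : B)) := by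
  rw [Gl, preK, preH]
  simp only [Submonoid.coe_mul, Unitary.coe_star, star_mul]

theorem Rv_append (τ : B →ₗ[ℂ] ℂ) (Φ : B → B → ℂ) (s : ℕ) (x x' : B) (be be' : List (ℕ × B)) :
    ∀ (al al' : List (ℕ × B)), al.length = al'.length → ∀ a a' : B,
    Rv τ Φ a a' (al ++ (s, x) :: be) (al' ++ (s, x') :: be') =
      Rv τ (fun y y' => τ (star y * y')) a a' al al' * Rv τ Φ x x' be be'
  | [], [], _, a, a' => by
    simp [Rv]
  | (c, y) :: al, (c', y') :: al', h, a, a' => by
    have h' : al.length = al'.length := by simpa using h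
    have ih := Rv_append τ Φ s x x' be be' al al' h' y y'
    simp only [List.cons_append, Rv]
    by_cases hc : c = c'
    · rw [if_pos hc, if_pos hc, ih, mul_assoc]
    · rw [if_neg hc, if_neg hc, zero_mul]

theorem Rv_ne (τ : B →ₗ[ℂ] ℂ) (Φ : B → B → ℂ) :
    ∀ (l l' : List (ℕ × B)), l.map Prod.fst ≠ l'.map Prod.fst → ∀ a a' : B,
    Rv τ Φ a a' l l' = 0
  | [], [], h, a, a' => absurd rfl h
  | [], _ :: _, _, a, a' => by rw [Rv]
  | _ :: _, [], _, a, a' => by rw [Rv]
  | (c, y) :: l, (c', y') :: l', h, a, a' => by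
    rw [Rv]
    by_cases hc : c = c'
    · rw [if_pos hc, Rv_ne τ Φ l l', mul_zero]
      intro h2
      apply h
      simp only [List.map_cons, hc, h2]
    · rw [if_neg hc]

/-! ### Bounded families -/

/-- Bounded functions. -/
def Bd {T : Type} (F : T → B) : Prop := ∃ C : ℝ, ∀ t, ‖F t‖ ≤ C

theorem Bd.mul {T : Type} {F G : T → B} (hF : Bd F) (hG : Bd G) : Bd (fun t => F t * G t) := by
  obtain ⟨C, hC⟩ := hF
  obtain ⟨D, hD⟩ := hG
  refine ⟨C * D, fun t => (norm_mul_le _ _).trans ?_⟩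
  exact mul_le_mul (hC t) (hD t) (norm_nonneg _) ((norm_nonneg _).trans (hC t))

theorem Bd.star {T : Type} {F : T → B} (hF : Bd F) : Bd (fun t => Star.star (F t)) := by
  obtain ⟨C, hC⟩ := hF
  exact ⟨C, fun t => by rw [norm_star]; exact hC t⟩

theorem Bd.const {T : Type} (b : B) : Bd (fun _ : T => b) := ⟨‖b‖, fun _ => le_rfl⟩

theorem norm_uni (u : unitary B) : ‖(u : B)‖ ≤ 1 := by
  rcases subsingleton_or_nontrivial B with h | h
  · rw [Subsingleton.elim (u : B) 0, norm_zero]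
    exact zero_le_one
  · rw [CStarRing.norm_coe_unitary]

theorem Bd.uni {T : Type} (F : T → unitary B) : Bd (fun t => (F t : B)) :=
  ⟨1, fun t => norm_uni (F t)⟩

theorem Bd.wd {T : Type} (G : T → ℕ → unitary B) (l : List (ℕ × B)) :
    Bd (fun t => Wd (G t) l) := by
  induction l with
  | nil => exact Bd.const 1
  | cons x l ih =>
    obtain ⟨c, x⟩ := x
    exact ((Bd.uni (fun t => G t c)).mul (Bd.const x)).mul ih

/-! ### Sesquilinear functions -/

/-- Bounded sesquilinear functions. -/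
structure Sesq (Ψ : B → B → ℂ) (C : ℝ) : Prop where
  nn : 0 ≤ C
  addl : ∀ x y z, Ψ (x + y) z = Ψ x z + Ψ y z
  addr : ∀ x y z, Ψ x (y + z) = Ψ x y + Ψ x z
  smull : ∀ (c : ℂ) x y, Ψ (c • x) y = conj c * Ψ x y
  smulr : ∀ (c : ℂ) x y, Ψ x (c • y) = c * Ψ x y
  bd : ∀ x y, ‖Ψ x y‖ ≤ C * ‖x‖ * ‖y‖

/-- Linear functional in the second variable. -/
def lr {Ψ : B → B → ℂ} {C : ℝ} (h : Sesq Ψ C) (y A D : B) : B →L[ℂ] ℂ :=
  LinearMap.mkContinuous
    { toFun := fun u => Ψ y (A * u * D)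
      map_add' := fun u v => by rw [mul_add, add_mul, h.addr]
      map_smul' := fun c u => by
        rw [mul_smul_comm, smul_mul_assoc, h.smulr, RingHom.id_apply, smul_eq_mul] }
    (C * ‖y‖ * ‖A‖ * ‖D‖) (fun u => by
      refine (h.bd _ _).trans ?_
      have h1 : ‖A * u * D‖ ≤ ‖A‖ * ‖u‖ * ‖D‖ :=
        (norm_mul_le _ _).trans (mul_le_mul_of_nonneg_right (norm_mul_le _ _) (norm_nonneg _))
      calc C * ‖y‖ * ‖A * u * D‖ ≤ C * ‖y‖ * (‖A‖ * ‖u‖ * ‖D‖) :=
            mul_le_mul_of_nonneg_left h1 (mul_nonneg h.nn (norm_nonneg _))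
        _ = C * ‖y‖ * ‖A‖ * ‖D‖ * ‖u‖ := by ring)

theorem lr_apply {Ψ : B → B → ℂ} {C : ℝ} (h : Sesq Ψ C) (y A D u : B) :
    lr h y A D u = Ψ y (A * u * D) := rfl

theorem lr_norm {Ψ : B → B → ℂ} {C : ℝ} (h : Sesq Ψ C) (y A D : B) :
    ‖lr h y A D‖ ≤ C * ‖y‖ * ‖A‖ * ‖D‖ :=
  LinearMap.mkContinuous_norm_le _
    (mul_nonneg (mul_nonneg (mul_nonneg h.nn (norm_nonneg _)) (norm_nonneg _)) (norm_nonneg _)) _

/-- Linear functional from the first variable. -/
def ll {Ψ : B → B → ℂ} {C : ℝ} (h : Sesq Ψ C) (y A D : B) : B →L[ℂ] ℂ :=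
  LinearMap.mkContinuous
    { toFun := fun u => Ψ (A * star u * D) y
      map_add' := fun u v => by rw [star_add, mul_add, add_mul, h.addl]
      map_smul' := fun c u => by
        rw [star_smul, mul_smul_comm, smul_mul_assoc, h.smull, RingHom.id_apply, smul_eq_mul,
          Complex.star_def, Complex.conj_conj] }
    (C * ‖y‖ * ‖A‖ * ‖D‖) (fun u => by
      refine (h.bd _ _).trans ?_
      have h1 : ‖A * star u * D‖ ≤ ‖A‖ * ‖u‖ * ‖D‖ := by
        refine (norm_mul_le _ _).trans (mul_le_mul_of_nonneg_right ?_ (norm_nonneg _))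
        refine (norm_mul_le _ _).trans ?_
        rw [norm_star]
      calc C * ‖A * star u * D‖ * ‖y‖ ≤ C * (‖A‖ * ‖u‖ * ‖D‖) * ‖y‖ :=
            mul_le_mul_of_nonneg_right (mul_le_mul_of_nonneg_left h1 h.nn) (norm_nonneg _)
        _ = C * ‖y‖ * ‖A‖ * ‖D‖ * ‖u‖ := by ring)

theorem ll_apply {Ψ : B → B → ℂ} {C : ℝ} (h : Sesq Ψ C) (y A D u : B) :
    ll h y A D u = Ψ (A * star u * D) y := rfl

theorem ll_norm {Ψ : B → B → ℂ} {C : ℝ} (h : Sesq Ψ C) (y A D : B) :
    ‖ll h y A D‖ ≤ C * ‖y‖ * ‖A‖ * ‖D‖ :=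
  LinearMap.mkContinuous_norm_le _
    (mul_nonneg (mul_nonneg (mul_nonneg h.nn (norm_nonneg _)) (norm_nonneg _)) (norm_nonneg _)) _

end

end Pool.Agent.Y155.D3
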