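import Mathlib
import Pool.Agent.Y155.D3.W1
import Pool.Agent.Y268.D3.Stm
import Pool.Agent.H674R2.Kad3.Word

/-! Random words: the rules for one block, and orthogonality. -/

open scoped ComplexOrder InnerProductSpace ComplexConjugate
open Finset

noncomputable section

namespace Pool.Agent.Y155.D3

open Y268.D3 H759R2.Kad H711R2.KG

section

variable {B : Type} [CStarAlgebra B] {K : Type} [NormedAddCommGroup K] [InnerProductSpace ℂ K]
  {τ : B →ₗ[ℂ] ℂ} {w : B →ₗ[ℂ] (K →L[ℂ] K)} {q : Form K}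
  {P : Mean (unitary B × unitary B)} {Ec : Mean (unitary B)}

theorem Mv_core (f : unitary B × unitary B → ℂ) (s : ℕ) :
    (Mv P Ec (.core s)).E f = Ec.E (fun g => f (g, 1)) := rfl

theorem hom_apply (hw : IsHom w) (a b : B) (ξ : K) : w (a * b) ξ = w a (w b ξ) := by
  rw [hw.mul]
  rfl

theorem uu (u : unitary B) : star (u : B) * (u : B) = 1 := Unitary.coe_star_mul_self u

theorem uu' (u : unitary B) : (u : B) * star (u : B) = 1 := Unitary.coe_mul_star_self u

theorem cancel1 (u : unitary B) (x : B) : star (u : B) * ((u : B) * x) = x := by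
  rw [← mul_assoc, uu, one_mul]

theorem cancel2 (u : unitary B) (x : B) : (u : B) * (star (u : B) * x) = x := by
  rw [← mul_assoc, uu', one_mul]

/-- The rule for one block, for forms. -/
theorem stage_form (hτ : ∀ a b, τ (a * b) = τ (b * a)) (hw : IsHom w) {γ : ℝ} (hγ : 0 ≤ γ)
    (hb : ∀ b, ‖w b‖ ≤ γ * ‖b‖) (hP : RotPair τ w q P Ec) (Z Z' : B) (X X' : K) :
    P.E (fun p => P.E (fun r => Ec.E (fun g =>
      q (w ((r.1 : B) * Z * star (p.2 : B) * (g : B) * (p.1 : B)) X)
        (w ((r.1 : B) * Z' * star (p.2 : B) * (g : B) * (p.1 : B)) X')))) =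
      τ (star Z * Z') * q X X' := by
  obtain ⟨C, hC⟩ := hP.st (γ * ‖X‖ + γ * ‖X'‖)
  have hn : ∀ (u : unitary B) (Y : K), ‖w (u : B) Y‖ ≤ γ * ‖Y‖ := by
    intro u Y
    refine ((w (u : B)).le_opNorm Y).trans (mul_le_mul_of_nonneg_right ?_ (norm_nonneg _))
    refine (hb _).trans ?_
    calc γ * ‖(u : B)‖ ≤ γ * 1 := mul_le_mul_of_nonneg_left (norm_uni u) hγ
      _ = γ := mul_one γ
  have h0 : 0 ≤ γ * ‖X‖ := mul_nonneg hγ (norm_nonneg _)
  have h0' : 0 ≤ γ * ‖X'‖ := mul_nonneg hγ (norm_nonneg _)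
  choose ρ ρ' h1 h2 h3 h4 using fun u : unitary B => hC (w (u : B) X) (w (u : B) X')
    ((hn u X).trans (by linarith)) ((hn u X').trans (by linarith))
  have e1 : ∀ p r : unitary B × unitary B, Ec.E (fun g =>
      q (w ((r.1 : B) * Z * star (p.2 : B) * (g : B) * (p.1 : B)) X)
        (w ((r.1 : B) * Z' * star (p.2 : B) * (g : B) * (p.1 : B)) X')) =
      ρ p.1 ((p.2 : B) * (star Z * Z') * star (p.2 : B)) +
        ρ' p.1 ((r.1 : B) * (Z' * star Z) * star (r.1 : B)) := by
    intro p r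
    have h5 := h4 p.1 ((r.1 : B) * Z * star (p.2 : B)) ((r.1 : B) * Z' * star (p.2 : B))
    simp only [hom_apply hw _ (p.1 : B)]
    rw [h5]
    congr 2
    · simp only [star_mul, star_star, mul_assoc, cancel1]
    · simp only [star_mul, star_star, mul_assoc, cancel1]
  simp only [e1]
  have e2 : ∀ p : unitary B × unitary B,
      P.E (fun r => ρ p.1 ((p.2 : B) * (star Z * Z') * star (p.2 : B)) +
        ρ' p.1 ((r.1 : B) * (Z' * star Z) * star (r.1 : B))) =
      ρ p.1 ((p.2 : B) * (star Z * Z') * star (p.2 : B)) + τ (star Z * Z') * ρ' p.1 1 := by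
    intro p
    rw [P.add', P.const, hP.dix1, hτ Z' (star Z)]
  simp only [e2]
  rw [P.add', hP.dix2 ρ C h1, P.const_mul, ← mul_add, ← P.add']
  simp only [h3]
  rw [hP.col]

/-- The rule for one block, for functionals. -/
theorem stage_alg (hP : RotPair τ w q P Ec) (φ : B →L[ℂ] ℂ) (Y u u' : B) :
    P.E (fun p => P.E (fun _ => Ec.E (fun g =>
      φ (star u * star (p.1 : B) * star (g : B) * ((p.2 : B) * Y * star (p.2 : B)) *
        ((g : B) * (p.1 : B) * u'))))) =
      τ Y * φ (star u * u') := by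
  let L : unitary B → (B →L[ℂ] ℂ) := fun h => LinearMap.mkContinuous
    { toFun := fun z => Ec.E (fun g =>
        φ (star u * star (h : B) * star (g : B) * z * ((g : B) * (h : B) * u')))
      map_add' := fun z z' => by
        rw [← Ec.add']
        congr 1
        funext g
        rw [mul_add, add_mul, map_add]
      map_smul' := fun c z => by
        rw [RingHom.id_apply, smul_eq_mul, ← Ec.const_mul]
        congr 1
        funext g
        rw [mul_smul_comm, smul_mul_assoc, map_smul, smul_eq_mul] }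
    (‖φ‖ * (‖u‖ * ‖u'‖)) (fun z => by
      refine Ec.bd _ _ fun g => ?_
      refine (φ.le_opNorm _).trans ?_
      rw [mul_assoc ‖φ‖]
      refine mul_le_mul_of_nonneg_left ?_ (norm_nonneg _)
      have g1 : ‖star u * star (h : B) * star (g : B)‖ ≤ ‖u‖ := by
        refine (norm_mul_le _ _).trans ?_
        rw [norm_star]
        have g2 : ‖star u * star (h : B)‖ ≤ ‖u‖ * 1 := by
          refine (norm_mul_le _ _).trans ?_
          rw [norm_star, norm_star]
          exact mul_le_mul_of_nonneg_left (norm_uni h) (norm_nonneg _)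
        calc ‖star u * star (h : B)‖ * ‖(g : B)‖ ≤ (‖u‖ * 1) * 1 :=
              mul_le_mul g2 (norm_uni g) (norm_nonneg _) (by positivity)
          _ = ‖u‖ := by ring
      have g3 : ‖(g : B) * (h : B) * u'‖ ≤ ‖u'‖ := by
        refine (norm_mul_le _ _).trans ?_
        have g4 : ‖(g : B) * (h : B)‖ ≤ 1 * 1 :=
          (norm_mul_le _ _).trans (mul_le_mul (norm_uni g) (norm_uni h) (norm_nonneg _)
            zero_le_one)
        calc ‖(g : B) * (h : B)‖ * ‖u'‖ ≤ (1 * 1) * ‖u'‖ :=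
              mul_le_mul_of_nonneg_right g4 (norm_nonneg _)
          _ = ‖u'‖ := by ring
      calc ‖star u * star (h : B) * star (g : B) * z * ((g : B) * (h : B) * u')‖
          ≤ ‖star u * star (h : B) * star (g : B) * z‖ * ‖(g : B) * (h : B) * u'‖ :=
            norm_mul_le _ _
        _ ≤ (‖u‖ * ‖z‖) * ‖u'‖ := by
            refine mul_le_mul ?_ g3 (norm_nonneg _) (by positivity)
            exact (norm_mul_le _ _).trans (mul_le_mul_of_nonneg_right g1 (norm_nonneg _))
        _ = ‖u‖ * ‖u'‖ * ‖z‖ := by ring)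
  have hL : ∀ h z, L h z = Ec.E (fun g =>
        φ (star u * star (h : B) * star (g : B) * z * ((g : B) * (h : B) * u'))) :=
    fun h z => rfl
  have hLn : ∀ h, ‖L h‖ ≤ ‖φ‖ * (‖u‖ * ‖u'‖) := fun h =>
    LinearMap.mkContinuous_norm_le _ (by positivity) _
  have e1 : ∀ h, L h 1 = φ (star u * u') := by
    intro h
    rw [hL]
    have e2 : ∀ g : unitary B, star u * star (h : B) * star (g : B) * 1 *
        ((g : B) * (h : B) * u') = star u * u' := by
      intro g
      simp only [mul_assoc, one_mul, cancel1]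
    simp only [e2]
    exact Ec.const _
  have e3 := hP.dix2 L _ hLn Y
  simp only [e1, hL] at e3
  rw [P.const] at e3
  rw [← e3]
  congr 1
  funext p
  exact P.const _

/-- A prefix rotation alone. -/
theorem stage_none (hP : RotPair τ w q P Ec) (X X' : K) :
    P.E (fun _ => P.E (fun r => Ec.E (fun _ =>
      q (w (r.1 : B) X) (w (r.1 : B) X')))) = q X X' := by
  simp only [Mean.const]
  exact hP.col X X'

/-! ### Orthogonality -/

/-- The letter `e` after the change of the rotation `e, e`. -/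
theorem Gl_upd (ω : Smp B) (e : ℕ) (p : unitary B × unitary B) :
    (Gl (Function.update ω (.rot e e) p) e : B) =
      star (preK ω e e : B) * star (p.2 : B) * ((ω (.core e)).1 : B) *
        ((p.1 : B) * (preH ω e e : B)) := by
  rw [Gl_coe]
  have h1 : preK (Function.update ω (.rot e e) p) e e = preK ω e e := by
    apply preK_congr
    intro b hb
    rw [Function.update_of_ne]
    intro h
    simp only [Var.rot.injEq, true_and] at h
    omega
  have h2 : preH (Function.update ω (.rot e e) p) e e = preH ω e e := by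
    apply preH_congr
    intro b hb
    rw [Function.update_of_ne]
    intro h
    simp only [Var.rot.injEq, true_and] at h
    omega
  have h3 : Function.update ω (.rot e e) p (.core e) = ω (.core e) := by
    rw [Function.update_of_ne]
    intro h
    cases h
  rw [h1, h2, h3, Function.update_self]

theorem Wd_upd (ω : Smp B) (e : ℕ) (p : unitary B × unitary B) {l : List (ℕ × B)}
    (hl : e ∉ l.map Prod.fst) : Wd (Gl (Function.update ω (.rot e e) p)) l = Wd (Gl ω) l :=
  (Wd_own l).upd (v := .rot e e) hl ω p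

/-- Orthogonality: the letter `e` is in the first word of the trace and in the second word of the
form. -/
theorem orth_r (hτ : ∀ a b, τ (a * b) = τ (b * a)) (hP : RotPair τ w q P Ec) (L : List Var)
    {e : ℕ} (hv : Var.rot e e ∈ L) {al1 al2 al' be be1 be2 : List (ℕ × B)}
    (h1 : e ∉ al1.map Prod.fst) (h2 : e ∉ al2.map Prod.fst) (h3 : e ∉ al'.map Prod.fst)
    (h4 : e ∉ be.map Prod.fst) (h5 : e ∉ be1.map Prod.fst) (h6 : e ∉ be2.map Prod.fst)
    (a a' y0 y0' x x' : B) (Ψ : Smp B → B → B → ℂ) (C : ℝ) (hΨ : ∀ ω, Sesq (Ψ ω) C)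
    (hΨd : ∀ ω t, Ψ (Function.update ω (.rot e e) t) = Ψ ω) (ω₀ : Smp B) :
    itE (Mv P Ec) L (fun ω =>
      τ (star (a * Wd (Gl ω) (al1 ++ (e, y0) :: al2)) * (a' * Wd (Gl ω) al')) *
        Ψ ω (x * Wd (Gl ω) be) (x' * Wd (Gl ω) (be1 ++ (e, y0') :: be2))) ω₀ = 0 := by
  refine itE_isolate _ L hv _ ?_ ω₀
  intro l₂ ω₁
  let Y : unitary B → Smp B → B := fun h ω =>
    (preK ω e e : B) * (star (a * Wd (Gl ω) al1) * (a' * Wd (Gl ω) al')) *
      (star (y0 * Wd (Gl ω) al2) * (star (preH ω e e : B) * star (h : B) *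
        star ((ω (.core e)).1 : B)))
  let A : Smp B → B := fun ω => x' * Wd (Gl ω) be1 * star (preK ω e e : B)
  let D : unitary B → Smp B → B := fun h ω =>
    ((ω (.core e)).1 : B) * ((h : B) * (preH ω e e : B)) * (y0' * Wd (Gl ω) be2)
  have bY : Bd (fun t : unitary B × Smp B => Y t.1 t.2) :=
    ((Bd.uni _).mul (((Bd.const a).mul (Bd.wd _ al1)).star.mul
      ((Bd.const a').mul (Bd.wd _ al')))).mul
      (((Bd.const y0).mul (Bd.wd _ al2)).star.mul (((Bd.uni _).star.mul
        (Bd.uni (fun t : unitary B × Smp B => t.1)).star).mul (Bd.uni _).star))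
  have bA : Bd (fun t : unitary B × Smp B => A t.2) :=
    ((Bd.const x').mul (Bd.wd _ be1)).mul (Bd.uni _).star
  have bD : Bd (fun t : unitary B × Smp B => D t.1 t.2) :=
    ((Bd.uni _).mul ((Bd.uni (fun t : unitary B × Smp B => t.1)).mul (Bd.uni _))).mul
      ((Bd.const y0').mul (Bd.wd _ be2))
  have bX : Bd (fun t : unitary B × Smp B => x * Wd (Gl t.2) be) :=
    (Bd.const x).mul (Bd.wd _ be)
  obtain ⟨cY, hY⟩ := bY
  obtain ⟨cA, hA⟩ := bA
  obtain ⟨cD, hD⟩ := bD
  obtain ⟨cX, hX⟩ := bX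
  let φ : unitary B → Smp B → (B →L[ℂ] ℂ) := fun h ω =>
    lr (hΨ ω) (x * Wd (Gl ω) be) (A ω) (D h ω)
  have hC := (hΨ ω₁).nn
  have hφ : ∀ h ω, ‖φ h ω‖ ≤ C * cX * cA * cD := by
    intro h ω
    refine (lr_norm _ _ _ _).trans ?_
    have g1 := hX (h, ω)
    have g2 := hA (h, ω)
    have g3 := hD (h, ω)
    have g0 : 0 ≤ cX := (norm_nonneg _).trans g1
    have g0' : 0 ≤ cA := (norm_nonneg _).trans g2
    exact mul_le_mul (mul_le_mul (mul_le_mul_of_nonneg_left g1 hC) g2 (norm_nonneg _)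
      (mul_nonneg hC g0)) g3 (norm_nonneg _) (mul_nonneg (mul_nonneg hC g0) g0')
  have key := hP.orthr (Smp B) (itMean (Mv P Ec) l₂ ω₁) Y φ (max cY (C * cX * cA * cD))
    (fun h ω => (hY (h, ω)).trans (le_max_left _ _)) (fun h ω => (hφ h ω).trans (le_max_right _ _))
  refine Eq.trans ?_ key
  change P.E _ = P.E _
  congr 1
  funext p
  congr 1
  funext ω
  rw [hΨd, Wd_split, Wd_split, Gl_upd, Wd_upd ω e p h1, Wd_upd ω e p h2, Wd_upd ω e p h3,
    Wd_upd ω e p h4, Wd_upd ω e p h5, Wd_upd ω e p h6]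
  have e1 : τ (star (a * (Wd (Gl ω) al1 * (star (preK ω e e : B) * star (p.2 : B) *
      ((ω (.core e)).1 : B) * ((p.1 : B) * (preH ω e e : B)) * y0 * Wd (Gl ω) al2))) *
        (a' * Wd (Gl ω) al')) = τ (Y p.1 ω * (p.2 : B)) := by
    have e2 : star (a * (Wd (Gl ω) al1 * (star (preK ω e e : B) * star (p.2 : B) *
        ((ω (.core e)).1 : B) * ((p.1 : B) * (preH ω e e : B)) * y0 * Wd (Gl ω) al2))) *
        (a' * Wd (Gl ω) al') =
        (star (y0 * Wd (Gl ω) al2) * (star (preH ω e e : B) * star (p.1 : B) *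
          star ((ω (.core e)).1 : B)) * (p.2 : B)) *
        ((preK ω e e : B) * (star (a * Wd (Gl ω) al1) * (a' * Wd (Gl ω) al'))) := by
      simp only [star_mul, star_star, mul_assoc]
    rw [e2, hτ]
    simp only [Y, mul_assoc]
  have e3 : x' * (Wd (Gl ω) be1 * (star (preK ω e e : B) * star (p.2 : B) *
      ((ω (.core e)).1 : B) * ((p.1 : B) * (preH ω e e : B)) * y0' * Wd (Gl ω) be2)) =
      A ω * star (p.2 : B) * D p.1 ω := by
    simp only [A, D, mul_assoc]
  rw [e1, e3]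
  rfl

/-- Orthogonality: the letter `e` is in the second word of the trace and in the first word of the
form. -/
theorem orth_l (hτ : ∀ a b, τ (a * b) = τ (b * a)) (hP : RotPair τ w q P Ec) (L : List Var)
    {e : ℕ} (hv : Var.rot e e ∈ L) {al al1 al2 be' be1 be2 : List (ℕ × B)}
    (h1 : e ∉ al1.map Prod.fst) (h2 : e ∉ al2.map Prod.fst) (h3 : e ∉ al.map Prod.fst)
    (h4 : e ∉ be'.map Prod.fst) (h5 : e ∉ be1.map Prod.fst) (h6 : e ∉ be2.map Prod.fst)
    (a a' y0 y0' x x' : B) (Ψ : Smp B → B → B → ℂ) (C : ℝ) (hΨ : ∀ ω, Sesq (Ψ ω) C)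
    (hΨd : ∀ ω t, Ψ (Function.update ω (.rot e e) t) = Ψ ω) (ω₀ : Smp B) :
    itE (Mv P Ec) L (fun ω =>
      τ (star (a * Wd (Gl ω) al) * (a' * Wd (Gl ω) (al1 ++ (e, y0) :: al2))) *
        Ψ ω (x * Wd (Gl ω) (be1 ++ (e, y0') :: be2)) (x' * Wd (Gl ω) be')) ω₀ = 0 := by
  refine itE_isolate _ L hv _ ?_ ω₀
  intro l₂ ω₁
  let Y : unitary B → Smp B → B := fun h ω =>
    (((ω (.core e)).1 : B) * ((h : B) * (preH ω e e : B)) * y0 * Wd (Gl ω) al2) *
      (star (a * Wd (Gl ω) al) * (a' * Wd (Gl ω) al1) * star (preK ω e e : B))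
  let A : Smp B → B := fun ω => x * Wd (Gl ω) be1 * star (preK ω e e : B)
  let D : unitary B → Smp B → B := fun h ω =>
    ((ω (.core e)).1 : B) * ((h : B) * (preH ω e e : B)) * (y0' * Wd (Gl ω) be2)
  have bY : Bd (fun t : unitary B × Smp B => Y t.1 t.2) :=
    ((((Bd.uni _).mul ((Bd.uni (fun t : unitary B × Smp B => t.1)).mul (Bd.uni _))).mul
      (Bd.const y0)).mul (Bd.wd _ al2)).mul
      ((((Bd.const a).mul (Bd.wd _ al)).star.mul
      ((Bd.const a').mul (Bd.wd _ al1))).mul (Bd.uni _).star)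
  have bA : Bd (fun t : unitary B × Smp B => A t.2) :=
    ((Bd.const x).mul (Bd.wd _ be1)).mul (Bd.uni _).star
  have bD : Bd (fun t : unitary B × Smp B => D t.1 t.2) :=
    ((Bd.uni _).mul ((Bd.uni (fun t : unitary B × Smp B => t.1)).mul (Bd.uni _))).mul
      ((Bd.const y0').mul (Bd.wd _ be2))
  have bX : Bd (fun t : unitary B × Smp B => x' * Wd (Gl t.2) be') :=
    (Bd.const x').mul (Bd.wd _ be')
  obtain ⟨cY, hY⟩ := bY
  obtain ⟨cA, hA⟩ := bA
  obtain ⟨cD, hD⟩ := bD
  obtain ⟨cX, hX⟩ := bX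
  let φ : unitary B → Smp B → (B →L[ℂ] ℂ) := fun h ω =>
    ll (hΨ ω) (x' * Wd (Gl ω) be') (A ω) (D h ω)
  have hC := (hΨ ω₁).nn
  have hφ : ∀ h ω, ‖φ h ω‖ ≤ C * cX * cA * cD := by
    intro h ω
    refine (ll_norm _ _ _ _).trans ?_
    have g1 := hX (h, ω)
    have g2 := hA (h, ω)
    have g3 := hD (h, ω)
    have g0 : 0 ≤ cX := (norm_nonneg _).trans g1
    have g0' : 0 ≤ cA := (norm_nonneg _).trans g2
    exact mul_le_mul (mul_le_mul (mul_le_mul_of_nonneg_left g1 hC) g2 (norm_nonneg _)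
      (mul_nonneg hC g0)) g3 (norm_nonneg _) (mul_nonneg (mul_nonneg hC g0) g0')
  have key := hP.orthl (Smp B) (itMean (Mv P Ec) l₂ ω₁) Y φ (max cY (C * cX * cA * cD))
    (fun h ω => (hY (h, ω)).trans (le_max_left _ _)) (fun h ω => (hφ h ω).trans (le_max_right _ _))
  refine Eq.trans ?_ key
  change P.E _ = P.E _
  congr 1
  funext p
  congr 1
  funext ω
  rw [hΨd, Wd_split, Wd_split, Gl_upd, Wd_upd ω e p h1, Wd_upd ω e p h2, Wd_upd ω e p h3,
    Wd_upd ω e p h4, Wd_upd ω e p h5, Wd_upd ω e p h6]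
  have e1 : τ (star (a * Wd (Gl ω) al) * (a' * (Wd (Gl ω) al1 * (star (preK ω e e : B) *
      star (p.2 : B) * ((ω (.core e)).1 : B) * ((p.1 : B) * (preH ω e e : B)) * y0 *
      Wd (Gl ω) al2)))) = τ (Y p.1 ω * star (p.2 : B)) := by
    have e2 : star (a * Wd (Gl ω) al) * (a' * (Wd (Gl ω) al1 * (star (preK ω e e : B) *
      star (p.2 : B) * ((ω (.core e)).1 : B) * ((p.1 : B) * (preH ω e e : B)) * y0 *
      Wd (Gl ω) al2))) =
        (star (a * Wd (Gl ω) al) * (a' * Wd (Gl ω) al1) * star (preK ω e e : B) *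
          star (p.2 : B)) *
        (((ω (.core e)).1 : B) * ((p.1 : B) * (preH ω e e : B)) * y0 * Wd (Gl ω) al2) := by
      simp only [mul_assoc]
    rw [e2, hτ]
    simp only [Y, mul_assoc]
  have e3 : x * (Wd (Gl ω) be1 * (star (preK ω e e : B) * star (p.2 : B) *
      ((ω (.core e)).1 : B) * ((p.1 : B) * (preH ω e e : B)) * y0' * Wd (Gl ω) be2)) =
      A ω * star (p.2 : B) * D p.1 ω := by
    simp only [A, D, mul_assoc]
  rw [e1, e3]
  rfl

end

end Pool.Agent.Y155.D3
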