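import Mathlib
import Pool.Agent.Y155.D3.W2

/-! Random words: the laws. -/

open scoped ComplexOrder InnerProductSpace ComplexConjugate
open Finset

noncomputable section

namespace Pool.Agent.Y155.D3

open Y268.D3 H759R2.Kad H711R2.KG

section

variable {B : Type} [CStarAlgebra B]

theorem split_letter {l : List (ℕ × B)} {e : ℕ} (he : e ∈ l.map Prod.fst)
    (hn : (l.map Prod.fst).Nodup) : ∃ (l₁ l₂ : List (ℕ × B)) (y : B), l = l₁ ++ (e, y) :: l₂ ∧
      e ∉ l₁.map Prod.fst ∧ e ∉ l₂.map Prod.fst := by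
  induction l with
  | nil => simp at he
  | cons z l ih =>
    obtain ⟨c, y⟩ := z
    rw [List.map_cons, List.nodup_cons] at hn
    by_cases h : c = e
    · subst h
      exact ⟨[], l, y, rfl, by simp, hn.1⟩
    · have he' : e ∈ l.map Prod.fst := by
        rw [List.map_cons, List.mem_cons] at he
        rcases he with he | he
        · exact absurd he.symm h
        · exact he
      obtain ⟨l₁, l₂, y', e1, h1, h2⟩ := ih he' hn.2
      refine ⟨(c, y) :: l₁, l₂, y', by rw [e1]; rfl, ?_, h2⟩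
      rw [List.map_cons, List.mem_cons]
      rintro (h3 | h3)
      · exact h h3.symm
      · exact h1 h3

theorem split_unique {s : ℕ} : ∀ {l₁ l₁' l₂ l₂' : List ℕ}, s ∉ l₁ → s ∉ l₁' →
    l₁ ++ s :: l₂ = l₁' ++ s :: l₂' → l₁ = l₁'
  | [], [], _, _, _, _, _ => rfl
  | [], c :: l, _, _, _, h, e => by
    exfalso
    simp only [List.nil_append, List.cons_append, List.cons.injEq] at e
    apply h
    rw [← e.1]
    exact List.mem_cons_self
  | c :: l, [], _, _, h, _, e => by
    exfalso
    simp only [List.nil_append, List.cons_append, List.cons.injEq] at e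
    apply h
    rw [e.1]
    exact List.mem_cons_self
  | c :: l, c' :: l', l₂, l₂', h, h', e => by
    simp only [List.cons_append, List.cons.injEq] at e
    rw [e.1, split_unique (s := s) (l₁ := l) (l₁' := l') (l₂ := l₂) (l₂' := l₂')
      (fun h1 => h (List.mem_cons_of_mem _ h1)) (fun h1 => h' (List.mem_cons_of_mem _ h1)) e.2]

variable {K : Type} [NormedAddCommGroup K] [InnerProductSpace ℂ K]
  {τ : B →ₗ[ℂ] ℂ} {w : B →ₗ[ℂ] (K →L[ℂ] K)} {q : Form K}
  {P : Mean (unitary B × unitary B)} {Ec : Mean (unitary B)}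

/-- The remaining mean after the block of the letter `s`. -/
theorem tail (hτ : ∀ a b, τ (a * b) = τ (b * a)) (hP : RotPair τ w q P Ec) {n s : ℕ}
    (hs : s ≤ n) {al al' be be' : List (ℕ × B)}
    (hnd : (al.map Prod.fst ++ s :: be.map Prod.fst).Nodup)
    (hp : (al'.map Prod.fst ++ s :: be'.map Prod.fst).Perm
      (al.map Prod.fst ++ s :: be.map Prod.fst))
    (hlt : ∀ c ∈ al.map Prod.fst ++ s :: be.map Prod.fst, c < s + 1)
    (a a' x x' : B) (Φ : B → B → ℂ) (Ψ : Smp B → B → B → ℂ) (C : ℝ)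
    (hΨ : ∀ ω, Sesq (Ψ ω) C) (hΨd : Dep (fun v => own v = s) Ψ)
    (hA : (al'.map Prod.fst).Perm (al.map Prod.fst) → ∀ ω₀, itE (Mv P Ec) (vars n s)
      (fun ω => τ (star (a * Wd (Gl ω) al) * (a' * Wd (Gl ω) al'))) ω₀ =
        Rv τ (fun y y' => τ (star y * y')) a a' al al')
    (hB : (be'.map Prod.fst).Perm (be.map Prod.fst) → ∀ ω₀, itE (Mv P Ec) (vars n s)
      (fun ω => Ψ ω (x * Wd (Gl ω) be) (x' * Wd (Gl ω) be')) ω₀ = Rv τ Φ x x' be be')
    (ω₀ : Smp B) :
    itE (Mv P Ec) (vars n s) (fun ω => τ (star (a * Wd (Gl ω) al) * (a' * Wd (Gl ω) al')) *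
      Ψ ω (x * Wd (Gl ω) be) (x' * Wd (Gl ω) be')) ω₀ =
    Rv τ Φ a a' (al ++ (s, x) :: be) (al' ++ (s, x') :: be') := by
  have hnd' := hp.nodup_iff.2 hnd
  obtain ⟨n1, n2, n3⟩ := List.nodup_append.1 hnd
  obtain ⟨n1', n2', n3'⟩ := List.nodup_append.1 hnd'
  obtain ⟨n4, n5⟩ := List.nodup_cons.1 n2
  obtain ⟨n4', n5'⟩ := List.nodup_cons.1 n2'
  have hsa : s ∉ al.map Prod.fst := fun h => n3 s h s List.mem_cons_self rfl
  have hsa' : s ∉ al'.map Prod.fst := fun h => n3' s h s List.mem_cons_self rfl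
  by_cases hpa : (al'.map Prod.fst).Perm (al.map Prod.fst)
  · have hpb : (be'.map Prod.fst).Perm (be.map Prod.fst) := by
      have h1 : (al.map Prod.fst ++ s :: be'.map Prod.fst).Perm
          (al.map Prod.fst ++ s :: be.map Prod.fst) :=
        (hpa.symm.append_right _).trans hp
      exact ((List.perm_append_left_iff _).1 h1).cons_inv
    have h1 := itE_mul (Mv P Ec) (vars n s)
      (fun ω => τ (star (a * Wd (Gl ω) al) * (a' * Wd (Gl ω) al')))
      (fun ω => Ψ ω (x * Wd (Gl ω) be) (x' * Wd (Gl ω) be'))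
      (fun v => own v ∈ al.map Prod.fst) (by
        intro ω ω' h
        have e1 : Wd (Gl ω) al = Wd (Gl ω') al := Wd_own al ω ω' h
        have e2 : Wd (Gl ω) al' = Wd (Gl ω') al' :=
          Wd_own al' ω ω' fun v hv => h v (hpa.mem_iff.1 hv)
        simp only [e1, e2]) (by
        intro ω ω' h
        have e1 : Wd (Gl ω) be = Wd (Gl ω') be :=
          Wd_own be ω ω' fun v hv => h v fun hv2 =>
            n3 _ hv2 _ (List.mem_cons_of_mem _ hv) rfl
        have e2 : Wd (Gl ω) be' = Wd (Gl ω') be' :=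
          Wd_own be' ω ω' fun v hv => h v fun hv2 =>
            n3 _ hv2 _ (List.mem_cons_of_mem _ (hpb.mem_iff.1 hv)) rfl
        have e3 : Ψ ω = Ψ ω' := hΨd ω ω' fun v hv => h v fun hv2 => by
          rw [hv] at hv2
          exact hsa hv2
        simp only [e1, e2, e3]) ω₀
    rw [h1, hA hpa, hB hpb]
    have hlen : al.length = al'.length := by
      have := hpa.length_eq
      simp only [List.length_map] at this
      exact this.symm
    exact (Rv_append τ Φ s x x' be be' al al' hlen a a').symm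
  · have hR : Rv τ Φ a a' (al ++ (s, x) :: be) (al' ++ (s, x') :: be') = 0 := by
      apply Rv_ne
      intro h
      rw [List.map_append, List.map_append, List.map_cons, List.map_cons] at h
      apply hpa
      rw [split_unique hsa hsa' h]
    rw [hR]
    rw [List.perm_ext_iff_of_nodup n1' n1] at hpa
    rw [not_forall] at hpa
    obtain ⟨e, he⟩ := hpa
    by_cases hea : e ∈ al.map Prod.fst
    · have hea' : e ∉ al'.map Prod.fst := fun h => he ⟨fun _ => hea, fun _ => h⟩
      have hes : e ≠ s := by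
        rintro rfl
        exact hsa hea
      have heb : e ∉ be.map Prod.fst := fun h => n3 e hea e (List.mem_cons_of_mem _ h) rfl
      have heb' : e ∈ be'.map Prod.fst := by
        have h1 := hp.mem_iff.2 (List.mem_append_left (s :: be.map Prod.fst) hea)
        rcases List.mem_append.1 h1 with h1 | h1
        · exact absurd h1 hea'
        · rcases List.mem_cons.1 h1 with h1 | h1
          · exact absurd h1 hes
          · exact h1
      have helt : e < s := by
        have := hlt e (List.mem_append_left _ hea)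
        omega
      obtain ⟨al1, al2, y0, e1, h1, h2⟩ := split_letter hea n1
      obtain ⟨be1, be2, y0', e2, h3, h4⟩ := split_letter heb' n5'
      rw [e1, e2]
      exact orth_r hτ hP (vars n s) (rot_mem_vars (by omega) helt) h1 h2 hea' heb h3 h4
        a a' y0 y0' x x' Ψ C hΨ (fun ω t => hΨd.upd (v := .rot e e) hes ω t) ω₀
    · have hea' : e ∈ al'.map Prod.fst := by
        by_contra h
        exact he ⟨fun h' => absurd h' h, fun h' => absurd h' hea⟩
      have hes : e ≠ s := by
        rintro rfl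
        exact hsa' hea'
      have heb' : e ∉ be'.map Prod.fst := fun h => n3' e hea' e (List.mem_cons_of_mem _ h) rfl
      have hmem := hp.mem_iff.1 (List.mem_append_left (s :: be'.map Prod.fst) hea')
      have heb : e ∈ be.map Prod.fst := by
        rcases List.mem_append.1 hmem with h1 | h1
        · exact absurd h1 hea
        · rcases List.mem_cons.1 h1 with h1 | h1
          · exact absurd h1 hes
          · exact h1
      have helt : e < s := by
        have := hlt e hmem
        omega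
      obtain ⟨al1, al2, y0, e1, h1, h2⟩ := split_letter hea' n1'
      obtain ⟨be1, be2, y0', e2, h3, h4⟩ := split_letter heb n5
      rw [e1, e2]
      exact orth_l hτ hP (vars n s) (rot_mem_vars (by omega) helt) h1 h2 hea heb' h3 h4
        a a' y0 y0' x x' Ψ C hΨ (fun ω t => hΨd.upd (v := .rot e e) hes ω t) ω₀

/-- The sesquilinear functions of a form. -/
theorem sesq_form {C γ : ℝ} (hq : IsForm q C) (hγ : 0 ≤ γ) (hb : ∀ b, ‖w b‖ ≤ γ * ‖b‖)
    (u : unitary B) (θ θ' : K) :
    Sesq (fun y y' => q (w ((u : B) * y) θ) (w ((u : B) * y') θ'))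
      (|C| * (γ * ‖θ‖) * (γ * ‖θ'‖)) := by
  have hadd : ∀ ξ ξ' η, q (ξ + ξ') η = q ξ η + q ξ' η := by
    intro ξ ξ' η
    rw [hq.herm η (ξ + ξ'), hq.add, map_add, ← hq.herm, ← hq.herm]
  have hsmul : ∀ (c : ℂ) ξ η, q (c • ξ) η = conj c * q ξ η := by
    intro c ξ η
    rw [hq.herm η (c • ξ), hq.smul, map_mul, ← hq.herm]
  have hn : ∀ (y : B) (θ : K), ‖w ((u : B) * y) θ‖ ≤ γ * ‖θ‖ * ‖y‖ := by
    intro y θ
    refine ((w _).le_opNorm θ).trans ?_
    have h1 : ‖(u : B) * y‖ ≤ ‖y‖ := by
      refine (norm_mul_le _ _).trans ?_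
      calc ‖(u : B)‖ * ‖y‖ ≤ 1 * ‖y‖ := mul_le_mul_of_nonneg_right (norm_uni u) (norm_nonneg _)
        _ = ‖y‖ := one_mul _
    calc ‖w ((u : B) * y)‖ * ‖θ‖ ≤ (γ * ‖y‖) * ‖θ‖ :=
          mul_le_mul_of_nonneg_right ((hb _).trans (mul_le_mul_of_nonneg_left h1 hγ))
            (norm_nonneg _)
      _ = γ * ‖θ‖ * ‖y‖ := by ring
  refine ⟨by positivity, ?_, ?_, ?_, ?_, ?_⟩
  · intro x y z
    rw [mul_add, map_add, ContinuousLinearMap.add_apply, hadd]
  · intro x y z
    rw [mul_add, map_add, ContinuousLinearMap.add_apply, hq.add]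
  · intro c x y
    rw [mul_smul_comm, map_smul, ContinuousLinearMap.smul_apply, hsmul]
  · intro c x y
    rw [mul_smul_comm, map_smul, ContinuousLinearMap.smul_apply, hq.smul]
  · intro x y
    refine (hq.bd _ _).trans ?_
    have h1 := hn x θ
    have h2 := hn y θ'
    calc C * ‖w ((u : B) * x) θ‖ * ‖w ((u : B) * y) θ'‖
        ≤ |C| * ‖w ((u : B) * x) θ‖ * ‖w ((u : B) * y) θ'‖ :=
          mul_le_mul_of_nonneg_right (mul_le_mul_of_nonneg_right (le_abs_self C)
            (norm_nonneg _)) (norm_nonneg _)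
      _ ≤ |C| * (γ * ‖θ‖ * ‖x‖) * (γ * ‖θ'‖ * ‖y‖) := by
          refine mul_le_mul (mul_le_mul_of_nonneg_left h1 (abs_nonneg _)) h2 (norm_nonneg _) ?_
          positivity
      _ = _ := by ring

/-- The sesquilinear functions of a functional. -/
theorem sesq_alg (φ : B →L[ℂ] ℂ) : Sesq (fun y y' => φ (star y * y')) ‖φ‖ := by
  refine ⟨norm_nonneg _, ?_, ?_, ?_, ?_, ?_⟩
  · intro x y z
    rw [star_add, add_mul, map_add]
  · intro x y z
    rw [mul_add, map_add]
  · intro c x y
    rw [star_smul, smul_mul_assoc, map_smul, smul_eq_mul, Complex.star_def]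
  · intro c x y
    rw [mul_smul_comm, map_smul, smul_eq_mul]
  · intro x y
    refine (φ.le_opNorm _).trans ?_
    rw [mul_assoc]
    refine mul_le_mul_of_nonneg_left ?_ (norm_nonneg _)
    refine (norm_mul_le _ _).trans ?_
    rw [norm_star]

/-- One block, for forms, with the letter. -/
theorem block_form (hτ : ∀ a b, τ (a * b) = τ (b * a)) (hw : IsHom w) {γ : ℝ} (hγ : 0 ≤ γ)
    (hb : ∀ b, ‖w b‖ ≤ γ * ‖b‖) (hP : RotPair τ w q P Ec) {n s o : ℕ} (hso : s < o) (hon : o ≤ n)
    {al al' be be' : List (ℕ × B)} (h1 : ∀ c ∈ al.map Prod.fst, c < s)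
    (h2 : ∀ c ∈ al'.map Prod.fst, c < s) (h3 : ∀ c ∈ be.map Prod.fst, c < s)
    (h4 : ∀ c ∈ be'.map Prod.fst, c < s) (a a' x x' : B) (θ θ' : K) :
    itE (Mv P Ec) (stageVars n s) (fun ω =>
      q (w ((preH ω o (s + 1) : B) * (a * Wd (Gl ω) (al ++ (s, x) :: be))) θ)
        (w ((preH ω o (s + 1) : B) * (a' * Wd (Gl ω) (al' ++ (s, x') :: be'))) θ')) =
    fun ω => τ (star (a * Wd (Gl ω) al) * (a' * Wd (Gl ω) al')) *
      q (w ((preH ω s s : B) * (x * Wd (Gl ω) be)) θ)
        (w ((preH ω s s : B) * (x' * Wd (Gl ω) be')) θ') := by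
  funext ω
  let Z : B := (preH ω o s : B) * (a * Wd (Gl ω) al) * star (preK ω s s : B)
  let Z' : B := (preH ω o s : B) * (a' * Wd (Gl ω) al') * star (preK ω s s : B)
  let X : K := w ((preH ω s s : B) * (x * Wd (Gl ω) be)) θ
  let X' : K := w ((preH ω s s : B) * (x' * Wd (Gl ω) be')) θ'
  let T : unitary B × unitary B → unitary B × unitary B → unitary B × unitary B → ℂ :=
    fun r p c => q (w ((r.1 : B) * Z * star (p.2 : B) * (c.1 : B) * (p.1 : B)) X)
      (w ((r.1 : B) * Z' * star (p.2 : B) * (c.1 : B) * (p.1 : B)) X')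
  rw [itE_congr (Mv P Ec) (stageVars n s) _
    (fun ω' => T (ω' (.rot o s)) (ω' (.rot s s)) (ω' (.core s))) ω, stage_T _ n s o hso hon T ω]
  · have e1 := stage_form hτ hw hγ hb hP Z Z' X X'
    have e2 : τ (star Z * Z') = τ (star (a * Wd (Gl ω) al) * (a' * Wd (Gl ω) al')) := by
      have e3 : star Z * Z' = (preK ω s s : B) *
          (star (a * Wd (Gl ω) al) * (a' * Wd (Gl ω) al') * star (preK ω s s : B)) := by
        simp only [Z, Z', star_mul, star_star, mul_assoc, cancel1]
      rw [e3, hτ, mul_assoc, uu, mul_one]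
    rw [e2] at e1
    exact e1
  · intro ω' h
    have hbk : ∀ v, blk v < s → ω' v = ω v := by
      intro v hv
      apply h
      intro hm
      rw [blk_stageVars hm] at hv
      omega
    have g1 : preH ω' o s = preH ω o s := preH_congr fun b hb => hbk (.rot o b) hb
    have g2 : preK ω' s s = preK ω s s := preK_congr fun b hb => hbk (.rot s b) hb
    have g3 : preH ω' s s = preH ω s s := preH_congr fun b hb => hbk (.rot s b) hb
    have g4 : Wd (Gl ω') al = Wd (Gl ω) al := Wd_blk h1 ω' ω hbk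
    have g5 : Wd (Gl ω') al' = Wd (Gl ω) al' := Wd_blk h2 ω' ω hbk
    have g6 : Wd (Gl ω') be = Wd (Gl ω) be := Wd_blk h3 ω' ω hbk
    have g7 : Wd (Gl ω') be' = Wd (Gl ω) be' := Wd_blk h4 ω' ω hbk
    have g8 : (preH ω' o (s + 1) : B) = ((ω' (.rot o s)).1 : B) * (preH ω o s : B) := by
      rw [← g1]
      rfl
    rw [g8, Wd_split, Wd_split, Gl_coe, g2, g3, g4, g5, g6, g7]
    simp only [T, Z, Z', X, X']
    rw [← hom_apply hw, ← hom_apply hw]
    simp only [mul_assoc]

/-- One block, for forms, without the letter. -/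
theorem block_form0 (hw : IsHom w) (hP : RotPair τ w q P Ec) {n s o : ℕ} (hso : s < o)
    (hon : o ≤ n) {l l' : List (ℕ × B)} (h1 : ∀ c ∈ l.map Prod.fst, c < s)
    (h2 : ∀ c ∈ l'.map Prod.fst, c < s) (a a' : B) (θ θ' : K) :
    itE (Mv P Ec) (stageVars n s) (fun ω =>
      q (w ((preH ω o (s + 1) : B) * (a * Wd (Gl ω) l)) θ)
        (w ((preH ω o (s + 1) : B) * (a' * Wd (Gl ω) l')) θ')) =
    fun ω => q (w ((preH ω o s : B) * (a * Wd (Gl ω) l)) θ)
        (w ((preH ω o s : B) * (a' * Wd (Gl ω) l')) θ') := by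
  funext ω
  let X : K := w ((preH ω o s : B) * (a * Wd (Gl ω) l)) θ
  let X' : K := w ((preH ω o s : B) * (a' * Wd (Gl ω) l')) θ'
  let T : unitary B × unitary B → unitary B × unitary B → unitary B × unitary B → ℂ :=
    fun r _ _ => q (w (r.1 : B) X) (w (r.1 : B) X')
  rw [itE_congr (Mv P Ec) (stageVars n s) _
    (fun ω' => T (ω' (.rot o s)) (ω' (.rot s s)) (ω' (.core s))) ω, stage_T _ n s o hso hon T ω]
  · exact stage_none hP X X'
  · intro ω' h
    have hbk : ∀ v, blk v < s → ω' v = ω v := by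
      intro v hv
      apply h
      intro hm
      rw [blk_stageVars hm] at hv
      omega
    have g1 : preH ω' o s = preH ω o s := preH_congr fun b hb => hbk (.rot o b) hb
    have g4 : Wd (Gl ω') l = Wd (Gl ω) l := Wd_blk h1 ω' ω hbk
    have g5 : Wd (Gl ω') l' = Wd (Gl ω) l' := Wd_blk h2 ω' ω hbk
    have g8 : (preH ω' o (s + 1) : B) = ((ω' (.rot o s)).1 : B) * (preH ω o s : B) := by
      rw [← g1]
      rfl
    rw [g8, g4, g5]
    simp only [T, X, X']
    rw [← hom_apply hw, ← hom_apply hw]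
    simp only [mul_assoc]

/-- One block, for functionals, with the letter. -/
theorem block_alg (hτ : ∀ a b, τ (a * b) = τ (b * a)) (hP : RotPair τ w q P Ec) {n s : ℕ}
    (hsn : s < n) {al al' be be' : List (ℕ × B)} (h1 : ∀ c ∈ al.map Prod.fst, c < s)
    (h2 : ∀ c ∈ al'.map Prod.fst, c < s) (h3 : ∀ c ∈ be.map Prod.fst, c < s)
    (h4 : ∀ c ∈ be'.map Prod.fst, c < s) (a a' x x' : B) (φ : B →L[ℂ] ℂ) :
    itE (Mv P Ec) (stageVars n s) (fun ω =>
      φ (star (a * Wd (Gl ω) (al ++ (s, x) :: be)) *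
        (a' * Wd (Gl ω) (al' ++ (s, x') :: be')))) =
    fun ω => τ (star (a * Wd (Gl ω) al) * (a' * Wd (Gl ω) al')) *
      φ (star (x * Wd (Gl ω) be) * (x' * Wd (Gl ω) be')) := by
  funext ω
  let Y : B := (preK ω s s : B) * (star (a * Wd (Gl ω) al) * (a' * Wd (Gl ω) al')) *
    star (preK ω s s : B)
  let u : B := (preH ω s s : B) * (x * Wd (Gl ω) be)
  let u' : B := (preH ω s s : B) * (x' * Wd (Gl ω) be')
  let T : unitary B × unitary B → unitary B × unitary B → unitary B × unitary B → ℂ :=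
    fun _ p c => φ (star u * star (p.1 : B) * star (c.1 : B) *
      ((p.2 : B) * Y * star (p.2 : B)) * ((c.1 : B) * (p.1 : B) * u'))
  rw [itE_congr (Mv P Ec) (stageVars n s) _
    (fun ω' => T (ω' (.rot n s)) (ω' (.rot s s)) (ω' (.core s))) ω,
    stage_T _ n s n hsn le_rfl T ω]
  · have e1 := stage_alg hP φ Y u u'
    have e2 : τ Y = τ (star (a * Wd (Gl ω) al) * (a' * Wd (Gl ω) al')) := by
      have e3 : Y = (preK ω s s : B) *
          (star (a * Wd (Gl ω) al) * (a' * Wd (Gl ω) al') * star (preK ω s s : B)) := by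
        simp only [Y, mul_assoc]
      rw [e3, hτ, mul_assoc, uu, mul_one]
    have e4 : star u * u' = star (x * Wd (Gl ω) be) * (x' * Wd (Gl ω) be') := by
      simp only [u, u', star_mul, mul_assoc, cancel1]
    rw [e2, e4] at e1
    exact e1
  · intro ω' h
    have hbk : ∀ v, blk v < s → ω' v = ω v := by
      intro v hv
      apply h
      intro hm
      rw [blk_stageVars hm] at hv
      omega
    have g2 : preK ω' s s = preK ω s s := preK_congr fun b hb => hbk (.rot s b) hb
    have g3 : preH ω' s s = preH ω s s := preH_congr fun b hb => hbk (.rot s b) hb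
    have g4 : Wd (Gl ω') al = Wd (Gl ω) al := Wd_blk h1 ω' ω hbk
    have g5 : Wd (Gl ω') al' = Wd (Gl ω) al' := Wd_blk h2 ω' ω hbk
    have g6 : Wd (Gl ω') be = Wd (Gl ω) be := Wd_blk h3 ω' ω hbk
    have g7 : Wd (Gl ω') be' = Wd (Gl ω) be' := Wd_blk h4 ω' ω hbk
    rw [Wd_split, Wd_split, Gl_coe, g2, g3, g4, g5, g6, g7]
    simp only [T, Y, u, u', star_mul, star_star, mul_assoc]

/-- One block, for functionals, without the letter. -/
theorem block_alg0 {n s : ℕ} {l l' : List (ℕ × B)} (h1 : ∀ c ∈ l.map Prod.fst, c < s)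
    (h2 : ∀ c ∈ l'.map Prod.fst, c < s) (a a' : B) (φ : B →L[ℂ] ℂ) :
    itE (Mv P Ec) (stageVars n s) (fun ω =>
      φ (star (a * Wd (Gl ω) l) * (a' * Wd (Gl ω) l'))) =
    fun ω => φ (star (a * Wd (Gl ω) l) * (a' * Wd (Gl ω) l')) := by
  apply itE_skip (D := fun v => blk v < s)
  · intro ω' ω h
    have g4 : Wd (Gl ω') l = Wd (Gl ω) l := Wd_blk h1 ω' ω h
    have g5 : Wd (Gl ω') l' = Wd (Gl ω) l' := Wd_blk h2 ω' ω h
    simp only [g4, g5]
  · intro v hv
    rw [blk_stageVars hv]
    omega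

/-- The laws of the words with letters below `s`. -/
theorem laws (hτ : ∀ a b, τ (a * b) = τ (b * a)) (τc : B →L[ℂ] ℂ) (hτc : ∀ b, τc b = τ b)
    (hw : IsHom w) {γ : ℝ} (hγ : 0 ≤ γ)
    (hb : ∀ b, ‖w b‖ ≤ γ * ‖b‖) (hP : RotPair τ w q P Ec) (n : ℕ) : ∀ s ≤ n,
    (∀ o, s ≤ o → o ≤ n → ∀ (l l' : List (ℕ × B)), (l.map Prod.fst).Nodup →
      (l'.map Prod.fst).Perm (l.map Prod.fst) → (∀ c ∈ l.map Prod.fst, c < s) →
      ∀ (a a' : B) (θ θ' : K) (ω₀ : Smp B),
      itE (Mv P Ec) (vars n s) (fun ω =>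
        q (w ((preH ω o s : B) * (a * Wd (Gl ω) l)) θ)
          (w ((preH ω o s : B) * (a' * Wd (Gl ω) l')) θ')) ω₀ =
      Rv τ (fun y y' => q (w y θ) (w y' θ')) a a' l l') ∧
    (∀ (l l' : List (ℕ × B)), (l.map Prod.fst).Nodup →
      (l'.map Prod.fst).Perm (l.map Prod.fst) → (∀ c ∈ l.map Prod.fst, c < s) →
      ∀ (a a' : B) (φ : B →L[ℂ] ℂ) (ω₀ : Smp B),
      itE (Mv P Ec) (vars n s) (fun ω =>
        φ (star (a * Wd (Gl ω) l) * (a' * Wd (Gl ω) l'))) ω₀ =
      Rv τ (fun y y' => φ (star y * y')) a a' l l') := by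
  intro s
  induction s with
  | zero =>
    intro _
    have hnil : ∀ (l l' : List (ℕ × B)), (l'.map Prod.fst).Perm (l.map Prod.fst) →
        (∀ c ∈ l.map Prod.fst, c < 0) → l = [] ∧ l' = [] := by
      intro l l' hp hl
      have h1 : l = [] := by
        cases l with
        | nil => rfl
        | cons z l =>
          have := hl z.1 (by simp)
          omega
      subst h1
      refine ⟨rfl, ?_⟩
      have h2 := hp.length_eq
      simp only [List.length_map, List.length_nil] at h2
      exact List.length_eq_zero_iff.1 h2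
    refine ⟨?_, ?_⟩
    · intro o _ _ l l' _ hp hl a a' θ θ' ω₀
      obtain ⟨rfl, rfl⟩ := hnil l l' hp hl
      simp only [vars, itE, preH, Wd, Rv, OneMemClass.coe_one, one_mul, mul_one]
    · intro l l' _ hp hl a a' φ ω₀
      obtain ⟨rfl, rfl⟩ := hnil l l' hp hl
      simp only [vars, itE, Wd, Rv, mul_one]
  | succ s ih =>
    intro hsn
    obtain ⟨ihF, ihA⟩ := ih (by omega)
    have hno : ∀ (l l' : List (ℕ × B)), (l'.map Prod.fst).Perm (l.map Prod.fst) →
        (∀ c ∈ l.map Prod.fst, c < s + 1) → s ∉ l.map Prod.fst →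
        (∀ c ∈ l.map Prod.fst, c < s) ∧ (∀ c ∈ l'.map Prod.fst, c < s) := by
      intro l l' hp hl hs
      have h1 : ∀ c ∈ l.map Prod.fst, c < s := by
        intro c hc
        have h2 := hl c hc
        have h3 : c ≠ s := by
          rintro rfl
          exact hs hc
        omega
      exact ⟨h1, fun c hc => h1 c (hp.mem_iff.1 hc)⟩
    have hyes : ∀ (l l' : List (ℕ × B)), (l.map Prod.fst).Nodup →
        (l'.map Prod.fst).Perm (l.map Prod.fst) →
        (∀ c ∈ l.map Prod.fst, c < s + 1) → s ∈ l.map Prod.fst →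
        ∃ (al be al' be' : List (ℕ × B)) (x x' : B), l = al ++ (s, x) :: be ∧
          l' = al' ++ (s, x') :: be' ∧ (∀ c ∈ al.map Prod.fst, c < s) ∧
          (∀ c ∈ al'.map Prod.fst, c < s) ∧ (∀ c ∈ be.map Prod.fst, c < s) ∧
          (∀ c ∈ be'.map Prod.fst, c < s) := by
      intro l l' hnd hp hl hs
      have hs' := hp.mem_iff.2 hs
      have hnd' := hp.nodup_iff.2 hnd
      have hl' : ∀ c ∈ l'.map Prod.fst, c < s + 1 := fun c hc => hl c (hp.mem_iff.1 hc)
      obtain ⟨al, be, x, e1, h1, h2⟩ := split_letter hs hnd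
      obtain ⟨al', be', x', e2, h3, h4⟩ := split_letter hs' hnd'
      have key : ∀ (k m : List (ℕ × B)), (∀ c ∈ m.map Prod.fst, c < s + 1) → s ∉ k.map Prod.fst →
          (∀ z ∈ k, z ∈ m) → ∀ c ∈ k.map Prod.fst, c < s := by
        intro k m hm hk hkm c hc
        have h5 : c ≠ s := by
          rintro rfl
          exact hk hc
        obtain ⟨z, hz, rfl⟩ := List.mem_map.1 hc
        have h6 := hm z.1 (List.mem_map_of_mem (hkm z hz))
        omega
      refine ⟨al, be, al', be', x, x', e1, e2, key al l hl h1 ?_, key al' l' hl' h3 ?_,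
        key be l hl h2 ?_, key be' l' hl' h4 ?_⟩
      · intro z hz
        rw [e1]
        exact List.mem_append_left _ hz
      · intro z hz
        rw [e2]
        exact List.mem_append_left _ hz
      · intro z hz
        rw [e1]
        exact List.mem_append_right _ (List.mem_cons_of_mem _ hz)
      · intro z hz
        rw [e2]
        exact List.mem_append_right _ (List.mem_cons_of_mem _ hz)
    refine ⟨?_, ?_⟩
    · intro o hso hon l l' hnd hp hl a a' θ θ' ω₀
      rw [vars, itE_append]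
      by_cases hs : s ∈ l.map Prod.fst
      · obtain ⟨al, be, al', be', x, x', e1, e2, h1, h2, h3, h4⟩ := hyes l l' hnd hp hl hs
        subst e1 e2
        rw [List.map_append, List.map_cons] at hnd hp hl
        rw [List.map_append, List.map_cons] at hp
        rw [block_form hτ hw hγ hb hP (by omega) hon h1 h2 h3 h4]
        obtain ⟨n1, n2, n3⟩ := List.nodup_append.1 hnd
        obtain ⟨n4, n5⟩ := List.nodup_cons.1 n2
        obtain ⟨Cq, hq⟩ := hP.form
        exact tail hτ hP (by omega) hnd hp hl a a' x x' (fun y y' => q (w y θ) (w y' θ'))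
          (fun ω y y' => q (w ((preH ω s s : B) * y) θ) (w ((preH ω s s : B) * y') θ'))
          (|Cq| * (γ * ‖θ‖) * (γ * ‖θ'‖)) (fun ω => sesq_form hq hγ hb (preH ω s s) θ θ')
          (fun ω ω' h => by
            have e : preH ω s s = preH ω' s s := preH_own s s ω ω' h
            simp only [e])
          (fun hpa ω₁ => by
            have := ihA al al' n1 hpa h1 a a' τc ω₁
            simp only [hτc] at this
            exact this)
          (fun hpb ω₁ => ihF s le_rfl (by omega) be be' n5 hpb h3 x x' θ θ' ω₁) ω₀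
      · obtain ⟨h1, h2⟩ := hno l l' hp hl hs
        rw [block_form0 hw hP (by omega) hon h1 h2]
        exact ihF o (by omega) hon l l' hnd hp h1 a a' θ θ' ω₀
    · intro l l' hnd hp hl a a' φ ω₀
      rw [vars, itE_append]
      by_cases hs : s ∈ l.map Prod.fst
      · obtain ⟨al, be, al', be', x, x', e1, e2, h1, h2, h3, h4⟩ := hyes l l' hnd hp hl hs
        subst e1 e2
        rw [List.map_append, List.map_cons] at hnd hp hl
        rw [List.map_append, List.map_cons] at hp
        rw [block_alg hτ hP (by omega) h1 h2 h3 h4]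
        obtain ⟨n1, n2, n3⟩ := List.nodup_append.1 hnd
        obtain ⟨n4, n5⟩ := List.nodup_cons.1 n2
        exact tail hτ hP (by omega) hnd hp hl a a' x x' (fun y y' => φ (star y * y'))
          (fun _ y y' => φ (star y * y')) ‖φ‖ (fun _ => sesq_alg φ) (fun _ _ _ => rfl)
          (fun hpa ω₁ => by
            have := ihA al al' n1 hpa h1 a a' τc ω₁
            simp only [hτc] at this
            exact this)
          (fun hpb ω₁ => ihA be be' n5 hpb h3 x x' φ ω₁) ω₀
      · obtain ⟨h1, h2⟩ := hno l l' hp hl hs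
        rw [block_alg0 h1 h2]
        exact ihA l l' hnd hp h1 a a' φ ω₀

end

/-- The laws of the random words. -/
theorem prove_words : S_words := by
  intro B _ _ _ τ hτ K _ _ _ w hw γ hγ hb q P Ec hP n
  let τc : B →L[ℂ] ℂ := τ.mkContinuous 1 (fun b => by
    rw [one_mul]
    exact A06.tau_norm_le hτ b)
  have h := laws hτ.comm τc (fun _ => rfl) hw hγ hb hP n n le_rfl
  refine ⟨?_, ?_⟩
  · intro l l' hnd hp hl a a' θ θ'
    exact h.1 n le_rfl le_rfl l l' hnd hp (fun c hc => by
      obtain ⟨z, hz, rfl⟩ := List.mem_map.1 hc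
      exact hl z hz) a a' θ θ' _
  · intro l l' hnd hp hl a a' φ
    exact h.2 l l' hnd hp (fun c hc => by
      obtain ⟨z, hz, rfl⟩ := List.mem_map.1 hc
      exact hl z hz) a a' φ _

end Pool.Agent.Y155.D3
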